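import Pool.Agent.H916R2.Full

/-!
Relations of the sawtooth hold for every odd distribution with values in a torsion free group.
The proof: the functions on `ZMod m` satisfying the distribution relations and transforming by a
given Dirichlet character form a space of dimension at most one.
-/

namespace Pool.Agent.N998

open Finset Pool.Agent.H916R2

variable {m : ℕ} [NeZero m]

/-- Functions with the transformation law and the distribution relations of `SS χ`. -/
structure ChiDist (χ : DirichletCharacter ℂ m) (f : ZMod m → ℂ) : Prop where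
  unit : ∀ (u : (ZMod m)ˣ) (a : ZMod m), f ((u : ZMod m) * a) = (χ u)⁻¹ * f a
  dist : ∀ p d : ℕ, p.Prime → p * d = m → ∀ a,
    ∑ i ∈ range p, f (a + (i : ZMod m) * (d : ZMod m)) = f ((p : ZMod m) * a)

lemma chiDist_SS (χ : DirichletCharacter ℂ m) : ChiDist χ (SS χ) :=
  ⟨SS_unit χ, fun _ _ _ hpd a => SS_dist χ hpd a⟩

omit [NeZero m] in
lemma ChiDist.sub_smul {χ : DirichletCharacter ℂ m} {f g : ZMod m → ℂ} (hf : ChiDist χ f)
    (hg : ChiDist χ g) (l : ℂ) : ChiDist χ (fun a => f a - l * g a) where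
  unit := fun u a => by rw [hf.unit, hg.unit]; ring
  dist := fun p d hp hpd a => by
    rw [sum_sub_distrib, ← mul_sum, hf.dist p d hp hpd, hg.dist p d hp hpd]

lemma ne_zero_of_mul_eq {r e : ℕ} (h : r * e = m) : r ≠ 0 ∧ e ≠ 0 := by
  have hm : m ≠ 0 := NeZero.ne m
  constructor
  · rintro rfl; exact hm (by rw [← h]; simp)
  · rintro rfl; exact hm (by rw [← h]; simp)

/-- If `u ≡ w` modulo `r` and `r * e = m` then `u e = w e` modulo `m`. -/
lemma mul_eq_of_cast {r e : ℕ} (h : r * e = m) (hr : r ∣ m) (u : ZMod m) (w : ℕ)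
    (hu : (ZMod.castHom hr (ZMod r)) u = (w : ZMod r)) :
    u * (e : ZMod m) = ((w * e : ℕ) : ZMod m) := by
  obtain ⟨hr0, he0⟩ := ne_zero_of_mul_eq h
  have h1 : u = ((u.val : ℕ) : ZMod m) := (ZMod.natCast_zmod_val u).symm
  have h2 : ((u.val : ℕ) : ZMod r) = (w : ZMod r) := by
    rw [← hu]
    conv_rhs => rw [h1]
    rw [map_natCast]
  rw [ZMod.natCast_eq_natCast_iff'] at h2
  conv_lhs => rw [h1]
  rw [← Nat.cast_mul, ZMod.natCast_eq_natCast_iff']
  subst h
  rw [Nat.mul_mod_mul_right, Nat.mul_mod_mul_right, h2]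

lemma exists_unit_lift {r : ℕ} (hr : r ∣ m) (w : ℕ) (hw : Nat.Coprime w r) :
    ∃ u : (ZMod m)ˣ, (ZMod.castHom hr (ZMod r)) (u : ZMod m) = (w : ZMod r) := by
  obtain ⟨u, hu⟩ := ZMod.unitsMap_surjective hr (ZMod.unitOfCoprime w hw)
  refine ⟨u, ?_⟩
  have := congrArg (fun v : (ZMod r)ˣ => (v : ZMod r)) hu
  simpa [ZMod.unitsMap_val] using this

lemma ChiDist.zero_of_not_factors {χ : DirichletCharacter ℂ m} {f : ZMod m → ℂ}
    (hf : ChiDist χ f) {r e : ℕ} (h : r * e = m) (hχ : ¬ χ.FactorsThrough r) :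
    f (e : ZMod m) = 0 := by
  have hr : r ∣ m := Dvd.intro e h
  rw [DirichletCharacter.factorsThrough_iff_ker_unitsMap hr] at hχ
  obtain ⟨u, hu1, hu2⟩ := SetLike.not_le_iff_exists.mp hχ
  rw [MonoidHom.mem_ker] at hu1 hu2
  have hcast : (ZMod.castHom hr (ZMod r)) (u : ZMod m) = ((1 : ℕ) : ZMod r) := by
    have := congrArg (fun v : (ZMod r)ˣ => (v : ZMod r)) hu1
    simpa [ZMod.unitsMap_val] using this
  have h1 := mul_eq_of_cast h hr (u : ZMod m) 1 hcast
  rw [one_mul] at h1
  have h2 := hf.unit u (e : ZMod m)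
  rw [h1] at h2
  have h3 : χ (u : ZMod m) ≠ 1 := by
    intro h3
    apply hu2
    ext
    rw [MulChar.coe_toUnitHom, h3]; rfl
  have h4 : (1 - (χ (u : ZMod m))⁻¹) * f (e : ZMod m) = 0 := by linear_combination h2
  rcases mul_eq_zero.mp h4 with h5 | h5
  · exfalso
    apply h3
    have : (χ (u : ZMod m))⁻¹ = 1 := (sub_eq_zero.mp h5).symm
    exact inv_eq_one.mp this
  · exact h5

lemma ChiDist.step {χ : DirichletCharacter ℂ m} {f : ZMod m → ℂ}
    (hf : ChiDist χ f) {r p e : ℕ} (hp : p.Prime) (h : r * p * e = m) (hχ : χ.FactorsThrough r)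
    (h0 : f (((p * e : ℕ)) : ZMod m) = 0) : f (e : ZMod m) = 0 := by
  classical
  have hr : r ∣ m := ⟨p * e, by rw [← h]; ring⟩
  have hrp : r * p ∣ m := Dvd.intro e h
  have hrpe : r * (p * e) = m := by rw [← h]; ring
  have hpd : p * (r * e) = m := by rw [← h]; ring
  have hd := hf.dist p (r * e) hp hpd (e : ZMod m)
  have h0' : f ((p : ZMod m) * (e : ZMod m)) = 0 := by
    rw [← Nat.cast_mul]; exact h0
  rw [h0'] at hd
  rw [DirichletCharacter.factorsThrough_iff_ker_unitsMap hr] at hχ
  have hterm : ∀ i ∈ range p, f ((e : ZMod m) + (i : ZMod m) * ((r * e : ℕ) : ZMod m)) =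
      if p ∣ 1 + i * r then 0 else f (e : ZMod m) := by
    intro i _
    have hcop : Nat.Coprime (1 + i * r) r := by
      rw [Nat.coprime_add_mul_right_left]; exact Nat.coprime_one_left r
    have hval : (e : ZMod m) + (i : ZMod m) * ((r * e : ℕ) : ZMod m) =
        (((1 + i * r) * e : ℕ) : ZMod m) := by push_cast; ring
    rw [hval]
    by_cases hdiv : p ∣ 1 + i * r
    · rw [if_pos hdiv]
      obtain ⟨w, hw⟩ := hdiv
      have hwr : Nat.Coprime w r := Nat.Coprime.coprime_dvd_left ⟨p, by rw [hw]; ring⟩ hcop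
      obtain ⟨u, hu⟩ := exists_unit_lift hr w hwr
      have h1 := mul_eq_of_cast hrpe hr (u : ZMod m) w hu
      have h2 : (((1 + i * r) * e : ℕ) : ZMod m) = (u : ZMod m) * ((p * e : ℕ) : ZMod m) := by
        rw [h1, hw]; congr 1; ring
      rw [h2, hf.unit, h0, mul_zero]
    · rw [if_neg hdiv]
      have hcop2 : Nat.Coprime (1 + i * r) (r * p) :=
        Nat.Coprime.mul_right hcop ((Nat.Prime.coprime_iff_not_dvd hp).mpr hdiv).symm
      obtain ⟨u, hu⟩ := exists_unit_lift hrp (1 + i * r) hcop2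
      have h1 := mul_eq_of_cast h hrp (u : ZMod m) (1 + i * r) hu
      rw [← h1, hf.unit]
      have hker : u ∈ (ZMod.unitsMap hr).ker := by
        rw [MonoidHom.mem_ker]
        ext
        rw [ZMod.unitsMap_val, Units.val_one]
        have h2 : (ZMod.castHom (Dvd.intro p rfl : r ∣ r * p) (ZMod r))
            ((ZMod.castHom hrp (ZMod (r * p))) (u : ZMod m)) = 1 := by
          rw [hu, map_natCast]
          push_cast
          simp
        have h3 : (ZMod.castHom (Dvd.intro p rfl : r ∣ r * p) (ZMod r))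
            ((ZMod.castHom hrp (ZMod (r * p))) (u : ZMod m)) =
            (ZMod.castHom hr (ZMod r)) (u : ZMod m) := by
          rw [← RingHom.comp_apply]
          congr 1
          exact RingHom.ext_zmod _ _
        rw [← h3.symm.trans h2]
        rfl
      have h4 := hχ hker
      rw [MonoidHom.mem_ker] at h4
      have h5 : χ (u : ZMod m) = 1 := by
        have := congrArg (fun v : ℂˣ => (v : ℂ)) h4
        simpa [MulChar.coe_toUnitHom] using this
      rw [h5]; simp
  have hd2 : ∑ i ∈ range p, f ((e : ZMod m) + (i : ZMod m) * ((r * e : ℕ) : ZMod m)) = 0 := by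
    rw [← hd]
  rw [sum_congr rfl hterm, Finset.sum_ite, sum_const_zero, zero_add, sum_const, nsmul_eq_mul,
    mul_eq_zero] at hd2
  rcases hd2 with hd2 | hd2
  · exfalso
    rw [Nat.cast_eq_zero, card_eq_zero] at hd2
    have : (0 : ℕ) ∈ ({x ∈ range p | ¬ p ∣ 1 + x * r} : Finset ℕ) := by
      rw [mem_filter]
      refine ⟨mem_range.mpr hp.pos, ?_⟩
      rw [zero_mul, add_zero]
      exact hp.one_lt.ne' ∘ Nat.dvd_one.mp
    rw [hd2] at this
    exact absurd this (Finset.notMem_empty 0)
  · exact hd2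

lemma ChiDist.zero {χ : DirichletCharacter ℂ m} {f : ZMod m → ℂ}
    (hf : ChiDist χ f) (h0 : f ((m / χ.conductor : ℕ) : ZMod m) = 0) (a : ZMod m) : f a = 0 := by
  have hk : χ.conductor ∣ m := χ.conductor_dvd_level
  have hfac : ∀ s : ℕ, χ.conductor * s ∣ m → χ.FactorsThrough (χ.conductor * s) := by
    intro s hs
    exact (DirichletCharacter.mem_conductorSet_iff_conductor_dvd χ hs).mpr (Dvd.intro s rfl)
  have main : ∀ s : ℕ, ∀ e : ℕ, χ.conductor * s * e = m → f (e : ZMod m) = 0 := by
    intro s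
    induction s using Nat.strong_induction_on with
    | _ s ih =>
      intro e he
      have hm : m ≠ 0 := NeZero.ne m
      have hs0 : s ≠ 0 := by
        rintro rfl
        exact hm (he.symm.trans (by simp))
      have hc0 : χ.conductor ≠ 0 := by
        intro h
        exact hm (he.symm.trans (by simp [h]))
      by_cases hs1 : s = 1
      · subst hs1
        rw [mul_one] at he
        have : m / χ.conductor = e :=
          Nat.div_eq_of_eq_mul_right (Nat.pos_of_ne_zero hc0) he.symm
        rw [← this]; exact h0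
      · obtain ⟨p, hp, hps⟩ := Nat.exists_prime_and_dvd hs1
        obtain ⟨t, rfl⟩ := hps
        have ht0 : t ≠ 0 := by rintro rfl; simp at hs0
        have hlt : t < p * t := by
          have := hp.two_le
          nlinarith [Nat.pos_of_ne_zero ht0]
        have he2 : χ.conductor * t * (p * e) = m := by
          have : χ.conductor * t * (p * e) = χ.conductor * (p * t) * e := by ring
          exact this.trans he
        have he3 : χ.conductor * t * p * e = m := by
          have : χ.conductor * t * p * e = χ.conductor * (p * t) * e := by ring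
          exact this.trans he
        have h1 := ih t hlt (p * e) he2
        exact hf.step hp (r := χ.conductor * t) he3 (hfac t ⟨p * e, he2.symm⟩) h1
  obtain ⟨e, he, u, hu, rfl⟩ := ZMod.eq_unit_mul_divisor a
  obtain ⟨u, rfl⟩ := hu
  rw [hf.unit]
  obtain ⟨r, hr⟩ := he
  have hre : r * e = m := by rw [hr]; ring
  by_cases hχ : χ.FactorsThrough r
  · have hdvd : χ.conductor ∣ r :=
      (DirichletCharacter.mem_conductorSet_iff_conductor_dvd χ (Dvd.intro e hre)).mp hχ
    obtain ⟨s, rfl⟩ := hdvd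
    rw [main s e hre, mul_zero]
  · rw [hf.zero_of_not_factors hre hχ, mul_zero]

/-- A function with the transformation law of `SS χ`, `χ` odd, is a multiple of `SS χ`. -/
lemma ChiDist.eq_smul {χ : DirichletCharacter ℂ m} (hχ : χ.Odd) {f : ZMod m → ℂ}
    (hf : ChiDist χ f) : ∃ l : ℂ, ∀ a, f a = l * SS χ a := by
  have hne : SS χ ((m / χ.conductor : ℕ) : ZMod m) ≠ 0 := by
    intro h
    obtain ⟨a, ha⟩ := exists_SS_ne_zero χ hχ
    exact ha ((chiDist_SS χ).zero h a)
  refine ⟨f ((m / χ.conductor : ℕ) : ZMod m) / SS χ ((m / χ.conductor : ℕ) : ZMod m), ?_⟩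
  intro a
  have := (hf.sub_smul (chiDist_SS χ)
    (f ((m / χ.conductor : ℕ) : ZMod m) / SS χ ((m / χ.conductor : ℕ) : ZMod m))).zero
    (by rw [div_mul_cancel₀ _ hne, sub_self]) a
  exact sub_eq_zero.mp this

/-- Fourier components of a function on `ZMod m` along the units. -/
noncomputable def FF (χ : DirichletCharacter ℂ m) (c : ZMod m → ℂ) (a : ZMod m) : ℂ :=
  ∑ t : (ZMod m)ˣ, χ t * c ((t : ZMod m) * a)

lemma FF_unit (χ : DirichletCharacter ℂ m) (c : ZMod m → ℂ) (u : (ZMod m)ˣ) (a : ZMod m) :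
    FF χ c ((u : ZMod m) * a) = (χ u)⁻¹ * FF χ c a := by
  unfold FF
  rw [mul_sum, ← Equiv.sum_comp (Equiv.mulRight u⁻¹)]
  refine sum_congr rfl fun t _ => ?_
  simp only [Equiv.coe_mulRight, Units.val_mul, map_mul]
  have h1 : (χ u) * χ ((u⁻¹ : (ZMod m)ˣ) : ZMod m) = 1 := by
    rw [← map_mul]; simp
  have h2 : χ ((u⁻¹ : (ZMod m)ˣ) : ZMod m) = (χ u)⁻¹ := by
    exact (inv_eq_of_mul_eq_one_right h1).symm
  rw [h2]
  have h3 : (t : ZMod m) * ((u⁻¹ : (ZMod m)ˣ) : ZMod m) * ((u : ZMod m) * a) = (t : ZMod m) * a := by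
    have : ((u⁻¹ : (ZMod m)ˣ) : ZMod m) * (u : ZMod m) = 1 := by simp
    linear_combination (t : ZMod m) * a * this
  rw [h3]
  ring

lemma FF_chiDist (χ : DirichletCharacter ℂ m) {c : ZMod m → ℂ} (hc : OddDist c) :
    ChiDist χ (FF χ c) where
  unit := FF_unit χ c
  dist := fun p d hp hpd a => by
    unfold FF
    rw [sum_comm]
    refine sum_congr rfl fun t _ => ?_
    rw [← mul_sum]
    congr 1
    rw [coset_sum_unit c hpd, hc.dist p d hp hpd]
    congr 1; ring

lemma FF_zero_of_even {χ : DirichletCharacter ℂ m} (hχ : χ.Even) {c : ZMod m → ℂ}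
    (hc : OddDist c) (a : ZMod m) : FF χ c a = 0 := by
  have h1 := FF_unit χ c (-1) a
  have h2 : FF χ c (((-1 : (ZMod m)ˣ) : ZMod m) * a) = - FF χ c a := by
    unfold FF
    rw [← sum_neg_distrib]
    refine sum_congr rfl fun t _ => ?_
    have : (t : ZMod m) * (((-1 : (ZMod m)ˣ) : ZMod m) * a) = - ((t : ZMod m) * a) := by
      rw [Units.val_neg, Units.val_one]; ring
    rw [this, hc.neg, mul_neg]
  have h3 : χ ((-1 : (ZMod m)ˣ) : ZMod m) = 1 := by
    rw [Units.val_neg, Units.val_one]; exact hχ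
  rw [h2, h3, inv_one, one_mul] at h1
  have : 2 * FF χ c a = 0 := by linear_combination - h1
  simpa using this

lemma sum_FF (c : ZMod m → ℂ) (a : ZMod m) :
    ∑ χ : DirichletCharacter ℂ m, FF χ c a = (Nat.totient m : ℂ) * c a := by
  classical
  unfold FF
  rw [sum_comm]
  have h1 : ∀ t : (ZMod m)ˣ, ∑ χ : DirichletCharacter ℂ m, χ t * c ((t : ZMod m) * a) =
      if t = 1 then (Nat.totient m : ℂ) * c a else 0 := by
    intro t
    rw [← sum_mul, DirichletCharacter.sum_characters_eq]
    by_cases h : t = 1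
    · subst h; simp
    · rw [if_neg h, if_neg (by rwa [Units.val_eq_one]), zero_mul]
  rw [sum_congr rfl fun t _ => h1 t]
  simp

lemma sum_SS_of_rel {x : ZMod m → ℤ} (hx : Rel x) (χ : DirichletCharacter ℂ m) :
    ∑ a, (x a : ℂ) * SS χ a = 0 := by
  unfold SS
  have h2 : ∑ a, (x a : ℂ) * ∑ t : (ZMod m)ˣ, χ t * (saw ((t : ZMod m) * a) : ℂ) =
      ∑ t : (ZMod m)ˣ, χ t * ((∑ a, x a * saw ((t : ZMod m) * a) : ℤ) : ℂ) := by
    simp only [mul_sum, Int.cast_sum, Int.cast_mul]
    rw [sum_comm]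
    refine sum_congr rfl fun t _ => sum_congr rfl fun a _ => ?_
    ring
  rw [h2]
  apply sum_eq_zero
  intro t _
  rw [hx t]; simp

/-- Relations of the sawtooth hold for every complex valued odd distribution. -/
theorem complex_zero (c : ZMod m → ℂ) (hc : OddDist c) (x : ZMod m → ℤ) (hx : Rel x) :
    ∑ a, (x a : ℂ) * c a = 0 := by
  have hm : (Nat.totient m : ℂ) ≠ 0 := by
    rw [Nat.cast_ne_zero]
    exact (Nat.totient_pos.mpr (NeZero.pos m)).ne'
  have h1 : (Nat.totient m : ℂ) * ∑ a, (x a : ℂ) * c a =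
      ∑ χ : DirichletCharacter ℂ m, ∑ a, (x a : ℂ) * FF χ c a := by
    rw [sum_comm, mul_sum]
    refine sum_congr rfl fun a _ => ?_
    rw [← mul_sum, sum_FF]; ring
  have h2 : ∀ χ : DirichletCharacter ℂ m, ∑ a, (x a : ℂ) * FF χ c a = 0 := by
    intro χ
    rcases χ.even_or_odd with he | ho
    · apply sum_eq_zero
      intro a _
      rw [FF_zero_of_even he hc, mul_zero]
    · obtain ⟨l, hl⟩ := (FF_chiDist χ hc).eq_smul ho
      have : ∀ a, (x a : ℂ) * FF χ c a = l * ((x a : ℂ) * SS χ a) := by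
        intro a; rw [hl]; ring
      rw [sum_congr rfl fun a _ => this a, ← mul_sum, sum_SS_of_rel hx, mul_zero]
  rw [sum_congr rfl fun χ _ => h2 χ, sum_const_zero] at h1
  exact (mul_eq_zero.mp h1).resolve_left hm

omit [NeZero m] in
/-- Odd distributions are preserved by homomorphisms. -/
lemma oddDist_map {Q Q' : Type*} [AddCommGroup Q] [AddCommGroup Q'] {c : ZMod m → Q}
    (hc : OddDist c) (φ : Q →+ Q') : OddDist (fun a => φ (c a)) where
  neg := fun a => by rw [hc.neg, map_neg]
  half := fun a ha => by rw [hc.half a ha, map_zero]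
  dist := fun p d hp hpd a => by rw [← hc.dist p d hp hpd, map_sum]

/-- Relations of the sawtooth hold for every rational valued odd distribution. -/
theorem rat_zero (c : ZMod m → ℚ) (hc : OddDist c) (x : ZMod m → ℤ) (hx : Rel x) :
    ∑ a, (x a : ℚ) * c a = 0 := by
  have h := complex_zero (fun a => (c a : ℂ))
    (oddDist_map hc ((Rat.castHom ℂ).toAddMonoidHom)) x hx
  have h2 : ((∑ a, (x a : ℚ) * c a : ℚ) : ℂ) = 0 := by
    rw [← h]; push_cast; rfl
  exact_mod_cast h2

/-- Relations of the sawtooth hold for every integer valued odd distribution. -/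
theorem int_zero (c : ZMod m → ℤ) (hc : OddDist c) (x : ZMod m → ℤ) (hx : Rel x) :
    ∑ a, x a * c a = 0 := by
  have h := rat_zero (fun a => (c a : ℚ))
    (oddDist_map hc ((Int.castRingHom ℚ).toAddMonoidHom)) x hx
  have h2 : ((∑ a, x a * c a : ℤ) : ℚ) = 0 := by
    rw [← h]; push_cast; rfl
  exact_mod_cast h2

/-- Relations of the sawtooth hold for odd distributions with values in a torsion free group. -/
theorem torsionFree_zero {Q : Type*} [AddCommGroup Q] [Module.IsTorsionFree ℤ Q]
    (c : ZMod m → Q) (hc : OddDist c) (x : ZMod m → ℤ) (hx : Rel x) :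
    ∑ a, x a • c a = 0 := by
  classical
  let S : Submodule ℤ Q := Submodule.span ℤ (Set.range c)
  have hfin : Module.Finite ℤ S := Module.Finite.span_of_finite ℤ (Set.finite_range c)
  have hfree : Module.Free ℤ S := inferInstance
  let c' : ZMod m → S := fun a => ⟨c a, Submodule.subset_span ⟨a, rfl⟩⟩
  have hc' : OddDist c' := by
    constructor
    · intro a; exact Subtype.ext (hc.neg a)
    · intro a ha; exact Subtype.ext (hc.half a ha)
    · intro p d hp hpd a
      apply Subtype.ext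
      rw [AddSubmonoidClass.coe_finsetSum]
      exact hc.dist p d hp hpd a
  have hkey : ∑ a, x a • c' a = 0 := by
    let b := Module.Free.chooseBasis ℤ S
    apply b.ext_elem
    intro i
    have h1 := int_zero (fun a => b.repr (c' a) i)
      (oddDist_map hc' (((Finsupp.applyAddHom i).comp (b.repr.toAddEquiv.toAddMonoidHom)))) x hx
    rw [map_sum, map_zero, Finsupp.finsetSum_apply, Finsupp.zero_apply, ← h1]
    refine sum_congr rfl fun a _ => ?_
    rw [map_smul, Finsupp.smul_apply, smul_eq_mul]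
  have := congrArg (fun s : S => (s : Q)) hkey
  simpa [c'] using this

/-- Relations of the sawtooth hold up to torsion for every odd distribution. -/
theorem torsion_of_rel {Q : Type*} [AddCommGroup Q] (c : ZMod m → Q) (hc : OddDist c)
    (x : ZMod m → ℤ) (hx : Rel x) : ∃ N : ℕ, N ≠ 0 ∧ N • ∑ a, x a • c a = 0 := by
  have h := torsionFree_zero (fun a => (Submodule.torsion ℤ Q).mkQ (c a))
    (oddDist_map hc ((Submodule.torsion ℤ Q).mkQ.toAddMonoidHom)) x hx
  have h2 : (Submodule.torsion ℤ Q).mkQ (∑ a, x a • c a) = 0 := by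
    rw [← h, map_sum]
    exact sum_congr rfl fun a _ => by rw [map_smul]
  rw [Submodule.mkQ_apply, Submodule.Quotient.mk_eq_zero, Submodule.mem_torsion_iff] at h2
  obtain ⟨z, hz⟩ := h2
  refine ⟨(z : ℤ).natAbs, Int.natAbs_ne_zero.mpr (nonZeroDivisors.ne_zero z.2), ?_⟩
  have hz' : (z : ℤ) • ∑ a, x a • c a = 0 := hz
  rw [← natCast_zsmul]
  rcases Int.natAbs_eq (z : ℤ) with h | h
  · rw [← h]; exact hz'
  · have h3 : (((z : ℤ).natAbs : ℕ) : ℤ) = - (z : ℤ) := by omega
    rw [h3, neg_smul, hz', neg_zero]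

end Pool.Agent.N998
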