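import Pool.Agent.N992.Level

/-!
Products of classes of squares modulo primes, both for primes congruent to 1 and to 3 modulo 4, come
from unions of modular spectra.
-/

namespace Pool.Agent.N998

open Finset Matrix MatrixGroups Pool.Agent.H916R2 Pool.Agent.Y2.Cv Pool.Agent.N992

set_option linter.unusedSectionVars false
set_option linter.unusedVariables false

section prime

variable {p : ℕ} [Fact p.Prime]

lemma two_ne_zero_odd (hp : p % 2 = 1) : (2 : ZMod p) ≠ 0 := by
  have h : ((2 : ℕ) : ZMod p) ≠ 0 := by
    intro h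
    rw [ZMod.natCast_eq_zero_iff] at h
    have := Nat.le_of_dvd (by norm_num) h
    have := (Fact.out : p.Prime).two_le
    have : p = 2 := by omega
    omega
  exact_mod_cast h

/-- the half system of the small residues -/
def Kh (p : ℕ) [Fact p.Prime] : Finset (ZMod p) := univ.filter (fun x => x ≠ 0 ∧ 2 * x.val < p)

lemma mem_Kh {x : ZMod p} : x ∈ Kh p ↔ x ≠ 0 ∧ 2 * x.val < p := by
  unfold Kh; simp

lemma neg_notMem_Kh {h : ZMod p} (h1 : h ∈ Kh p) : -h ∉ Kh p := by
  rw [mem_Kh] at h1
  rw [mem_Kh]
  rintro ⟨_, h2⟩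
  have : NeZero h := ⟨h1.1⟩
  rw [ZMod.val_neg_of_ne_zero] at h2
  have := ZMod.val_lt h
  omega

lemma cover_Kh (hp : p % 2 = 1) {x : ZMod p} (hx : x ≠ 0) : x ∈ Kh p ∨ -x ∈ Kh p := by
  have : NeZero x := ⟨hx⟩
  rw [mem_Kh, mem_Kh, ZMod.val_neg_of_ne_zero]
  have := ZMod.val_lt x
  by_cases h : 2 * x.val < p
  · left; exact ⟨hx, h⟩
  · right; exact ⟨neg_ne_zero.mpr hx, by omega⟩

lemma trans_odd' (hp : p % 2 = 1) : Trans (Kh p) (-1 : ℂ) where
  inter := fun h h1 h2 => absurd h2 (neg_notMem_Kh h1)
  cover := fun x => by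
    by_cases hx : x = 0
    · exact Or.inr (Or.inr ⟨hx, rfl⟩)
    · rcases cover_Kh hp hx with h | h
      · exact Or.inl h
      · exact Or.inr (Or.inl h)
  sq := by norm_num

lemma trans_even' (hp : p % 2 = 1) : Trans (insert 0 (Kh p)) (1 : ℂ) where
  inter := fun h h1 h2 => by
    refine ⟨?_, rfl⟩
    rcases Finset.mem_insert.mp h1 with h1 | h1
    · exact h1
    · rcases Finset.mem_insert.mp h2 with h2 | h2
      · exact neg_eq_zero.mp h2
      · exact absurd h2 (neg_notMem_Kh h1)
  cover := fun x => by
    by_cases hx : x = 0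
    · left; rw [hx]; exact Finset.mem_insert_self _ _
    · rcases cover_Kh hp hx with h | h
      · exact Or.inl (Finset.mem_insert_of_mem h)
      · exact Or.inr (Or.inl (Finset.mem_insert_of_mem h))
  sq := by norm_num

lemma sq_map_Kh (hp : p % 2 = 1) : (Kh p).val.map (fun x => x ^ 2) = (Hf p).val := by
  classical
  have hinj : Set.InjOn (fun x : ZMod p => x ^ 2) (Kh p : Set (ZMod p)) := by
    intro x hx y hy hxy
    rcases sq_eq_sq_iff_eq_or_eq_neg.mp hxy with h | h
    · exact h
    · exfalso
      have h1 : -y ∈ Kh p := by rw [← h]; exact hx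
      exact neg_notMem_Kh hy h1
  rw [← Finset.image_val_of_injOn hinj]
  congr 1
  ext y
  rw [Finset.mem_image, mem_Hf_prime]
  constructor
  · rintro ⟨x, hx, rfl⟩
    rw [mem_Kh] at hx
    exact ⟨pow_ne_zero 2 hx.1, IsSquare.sq x⟩
  · rintro ⟨hy, x, rfl⟩
    have hx : x ≠ 0 := by rintro rfl; simp at hy
    rcases cover_Kh hp hx with h | h
    · exact ⟨x, h, by ring⟩
    · exact ⟨-x, h, by ring⟩

variable {m : ℕ} [NeZero m]

lemma spec_part' (hp : p % 2 = 1) (j : ZMod p →+ ZMod m) (hj : Function.Injective j)
    {K : Finset (ZMod p)} {σ : ℂ} (hK : Trans K σ) :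
    Spec m (qc (-1 : ZMod p) * σ) (K.val.map (fun x => j (x ^ 2))) := by
  have hp2 : p ≠ 2 := by omega
  have h2 := two_ne_zero_odd hp
  have hψ := prim_of_inj j hj
  refine ⟨p, {x // x ∈ K}, inferInstance, inferInstance, weilPart _ hp2 hψ h2 hK,
    fun x => j ((x : ZMod p) ^ 2), (Fact.out : p.Prime).ne_zero, ?_, ?_, ?_, ?_⟩
  · intro g hg
    rw [weilPart_apply, weil_gamma _ hp2 hψ g hg, Matrix.mul_one, PP_mul_PI h2 hK]
  · rw [weilPart_apply, weil_neg_one, PP_flip_PI h2 hK]
  · rw [weilPart_apply, weil_T, PP_diag_PI h2 hK]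
    · rfl
    · intro x
      rw [neg_sq]
  · rw [Finset.univ_eq_attach]
    conv_lhs => rw [← Finset.attach_map_val (s := K)]
    rw [Finset.map_val, Multiset.map_map]
    rfl

/-- the class of squares times `v` -/
noncomputable def HV (k : ℕ) [NeZero k] (v : (ZMod k)ˣ) : Finset (ZMod k) :=
  (Hf k).image (fun a => (v : ZMod k) * a)

omit [NeZero m] in
lemma HV_map {k : ℕ} [NeZero k] (v : (ZMod k)ˣ) (j : ZMod k →+ ZMod m) :
    (HV k v).val.map j = (Hf k).val.map (j.comp (AddMonoidHom.mulLeft (v : ZMod k))) := by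
  have hinj : Set.InjOn (fun a : ZMod k => (v : ZMod k) * a) (Hf k : Set (ZMod k)) := by
    intro x _ y _ h
    exact v.isUnit.mul_right_injective h
  unfold HV
  rw [Finset.image_val_of_injOn hinj, Multiset.map_map]
  rfl

lemma zero_notMem_HV {k : ℕ} [NeZero k] (hk : 1 < k) (v : (ZMod k)ˣ) : (0 : ZMod k) ∉ HV k v := by
  intro h
  obtain ⟨a, ha, h0⟩ := Finset.mem_image.mp h
  rw [mem_Hf1] at ha
  have h1 : IsUnit ((v : ZMod k) * a) := v.isUnit.mul ha.1
  rw [h0] at h1
  have : Fact (1 < k) := ⟨hk⟩
  exact not_isUnit_zero h1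

/-- the scalar -/
noncomputable def sgn4 (k : ℕ) : ℂ := if k % 4 = 3 then 1 else -1

lemma neg_qc (hp : p % 2 = 1) : qc (-1 : ZMod p) = - sgn4 p := by
  unfold sgn4
  by_cases h : p % 4 = 3
  · rw [if_pos h, qc_neg_one h]
  · have h1 : IsSquare (-1 : ZMod p) := ZMod.exists_sq_eq_neg_one_iff.mpr h
    rw [if_neg h]
    unfold qc
    rw [(quadraticChar_one_iff_isSquare (by norm_num)).mpr h1]
    norm_num

lemma mulLeft_comp_injective {k : ℕ} (v : (ZMod k)ˣ) (j : ZMod k →+ ZMod m)
    (hj : Function.Injective j) :
    Function.Injective (j.comp (AddMonoidHom.mulLeft (v : ZMod k))) := by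
  intro x y h
  exact v.isUnit.mul_right_injective (hj h)

lemma spec_HV (hp : p % 2 = 1) (v : (ZMod p)ˣ) (j : ZMod p →+ ZMod m) (hj : Function.Injective j) :
    Spec m (sgn4 p) ((HV p v).val.map j) := by
  have h := spec_part' hp _ (mulLeft_comp_injective v j hj) (trans_odd' hp)
  rw [neg_qc hp, mul_neg, mul_one, neg_neg] at h
  have e : ∀ (f : ZMod p → ZMod m) (K : Multiset (ZMod p)),
      K.map (fun x => f (x ^ 2)) = (K.map (fun x => x ^ 2)).map f := by
    intro f K; rw [Multiset.map_map]; rfl
  rw [e, sq_map_Kh hp] at h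
  rw [HV_map]
  exact h

lemma spec_HV0 (hp : p % 2 = 1) (v : (ZMod p)ˣ) (j : ZMod p →+ ZMod m)
    (hj : Function.Injective j) :
    Spec m (- sgn4 p) ((insert 0 (HV p v)).val.map j) := by
  have h := spec_part' hp _ (mulLeft_comp_injective v j hj) (trans_even' hp)
  rw [neg_qc hp, mul_one] at h
  have e : ∀ (f : ZMod p → ZMod m) (K : Multiset (ZMod p)),
      K.map (fun x => f (x ^ 2)) = (K.map (fun x => x ^ 2)).map f := by
    intro f K; rw [Multiset.map_map]; rfl
  rw [e] at h
  have h0 : (0 : ZMod p) ∉ Kh p := by rw [mem_Kh]; simp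
  have h0' := zero_notMem_HV (Fact.out : p.Prime).one_lt v
  rw [Finset.insert_val_of_notMem h0, Multiset.map_cons, sq_map_Kh hp, Multiset.map_cons] at h
  rw [Finset.insert_val_of_notMem h0', Multiset.map_cons, HV_map, map_zero]
  have e0 : (j.comp (AddMonoidHom.mulLeft (v : ZMod p))) ((0 : ZMod p) ^ 2) = 0 := by
    rw [zero_pow (by norm_num), map_zero]
  rw [e0] at h
  exact h

lemma spec_four' (v : (ZMod 4)ˣ) (j : ZMod 4 →+ ZMod m) (hj : Function.Injective j) :
    Spec m (-1) ((HV 4 v).val.map j) := by
  rw [HV_map]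
  have h1 : Hf 4 = {1} := by
    ext a
    rw [mem_Hf1, Finset.mem_singleton]
    revert a
    decide
  rw [h1, Finset.singleton_val, Multiset.map_singleton]
  exact spec_four _ (mulLeft_comp_injective v j hj)

end prime

section level

variable {ι : Type} [Fintype ι] [LinearOrder ι] {n : ι → ℕ} [∀ i, NeZero (n i)] {N : ℕ} [NeZero N]
  {Q : Type} [AddCommGroup Q] {c : ZMod N → Q}

lemma mem_KK_of_spec (E : (∀ i, ZMod (n i)) ≃+* ZMod N) (hc : OddDist c)
    (P : Finset (∀ i, ZMod (n i))) (hP : Spec N 1 (P.val.map E)) :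
    (∑ x ∈ P, c (E x), fun t : (∀ i, ZMod (n i))ˣ => ∑ x ∈ P, saw (E ((t : ∀ i, ZMod (n i)) * x))) ∈
      KK E hc := by
  refine ⟨_, Modu.single hP.modular, ?_, ?_⟩
  · rw [sum_filter_ne c (hc.half 0 (by simp)), Multiset.map_map]; rfl
  · intro t
    rw [sum_filter_ne _ (by rw [mul_zero, saw_zero]), Multiset.map_map]
    change _ = ∑ x ∈ P, saw (E ((t : ∀ i, ZMod (n i)) * x))
    unfold Finset.sum
    congr 1
    apply Multiset.map_congr rfl
    intro x _
    simp only [Function.comp_apply, map_mul]

/-- the product of the sets `HV (n i) (v i)` over `T` -/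
noncomputable def QV (v : ∀ i, (ZMod (n i))ˣ) (T : Finset ι) : Finset (∀ i, ZMod (n i)) :=
  PA (fun i => HV (n i) (v i)) T

lemma spec_HV_i (hn : ∀ i, ((n i).Prime ∧ n i % 2 = 1) ∨ n i = 4)
    (E : (∀ i, ZMod (n i)) ≃+* ZMod N) (v : ∀ i, (ZMod (n i))ˣ) (i : ι) :
    Spec N (sgn4 (n i)) ((HV (n i) (v i)).val.map (inc E i)) := by
  rcases hn i with h | h
  · have : Fact (n i).Prime := ⟨h.1⟩
    exact spec_HV h.2 (v i) (inc E i) (inc_injective E i)
  · have key : ∀ (k : ℕ) [NeZero k] (w : (ZMod k)ˣ) (j : ZMod k →+ ZMod N), k = 4 →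
        Function.Injective j → Spec N (sgn4 k) ((HV k w).val.map j) := by
      intro k _ w j hk hj
      subst hk
      have : sgn4 4 = -1 := if_neg (by norm_num)
      rw [this]
      exact spec_four' w j hj
    exact key (n i) (v i) (inc E i) h (inc_injective E i)

/-- The class of a product of classes of squares comes from unions of modular spectra. -/
theorem QV_mem_KK' (hn : ∀ i, ((n i).Prime ∧ n i % 2 = 1) ∨ n i = 4)
    (hco : Pairwise (fun i j => (n i).Coprime (n j)))
    (E : (∀ i, ZMod (n i)) ≃+* ZMod N) (hc : OddDist c) (v : ∀ i, (ZMod (n i))ˣ) :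
    ∀ (k : ℕ) (T : Finset ι), T.card = k →
    (∑ x ∈ QV v T, c (E x),
      fun t : (∀ i, ZMod (n i))ˣ => ∑ x ∈ QV v T, saw (E ((t : ∀ i, ZMod (n i)) * x))) ∈ KK E hc := by
  classical
  have h1n : ∀ i, 1 < n i := by
    intro i
    rcases hn i with h | h
    · exact h.1.one_lt
    · omega
  intro k
  induction k with
  | zero =>
    intro T hT
    rw [Finset.card_eq_zero] at hT
    subst hT
    have h0 : QV v (∅ : Finset ι) = {0} := by
      ext x
      rw [QV, Pool.Agent.N992.mem_PA, Finset.mem_singleton]
      constructor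
      · rintro ⟨_, h⟩; funext i; exact h i (Finset.notMem_empty _)
      · rintro rfl; exact ⟨fun i hi => absurd hi (Finset.notMem_empty _), fun _ _ => rfl⟩
    rw [h0]
    simp only [Finset.sum_singleton, map_zero, mul_zero, saw_zero, hc.half 0 (by simp)]
    exact (KK E hc).zero_mem
  | succ k ih =>
    intro T hT
    have hsq : ∀ (U : Finset ι), (∏ i ∈ U, sgn4 (n i) = 1) ∨ (∏ i ∈ U, sgn4 (n i) = -1) := by
      intro U
      induction U using Finset.induction_on with
      | empty => left; simp
      | insert i U hi ih =>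
        rw [Finset.prod_insert hi]
        have h3 : sgn4 (n i) = 1 ∨ sgn4 (n i) = -1 := by
          unfold sgn4
          split_ifs
          · left; rfl
          · right; rfl
        rcases h3 with h3 | h3 <;> rcases ih with h4 | h4 <;> rw [h3, h4] <;> norm_num
    rcases hsq T with h1 | h1
    · have hs := spec_PA E (fun i => HV (n i) (v i)) (fun i => sgn4 (n i)) T
        (fun i _ => spec_HV_i hn E v i)
      rw [h1] at hs
      exact mem_KK_of_spec E hc _ hs
    · by_cases h2 : ∃ i ∈ T, (n i).Prime
      · obtain ⟨i1, hi1, hp1⟩ := h2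
        have hodd : n i1 % 2 = 1 := by
          rcases hn i1 with h | h
          · exact h.2
          · rw [h] at hp1; exact absurd hp1 (by norm_num)
        let A : ∀ i, Finset (ZMod (n i)) := fun i =>
          if i = i1 then insert 0 (HV (n i) (v i)) else HV (n i) (v i)
        let ε : ι → ℂ := fun i => if i = i1 then - sgn4 (n i) else sgn4 (n i)
        have hs := spec_PA E A ε T (by
          intro i _
          by_cases e1 : i = i1
          · subst e1
            have hA : A i = insert 0 (HV (n i) (v i)) := if_pos rfl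
            have hε : ε i = - sgn4 (n i) := if_pos rfl
            rw [hA, hε]
            have : Fact (n i).Prime := ⟨hp1⟩
            exact spec_HV0 hodd (v i) (inc E i) (inc_injective E i)
          · have hA : A i = HV (n i) (v i) := if_neg e1
            have hε : ε i = sgn4 (n i) := if_neg e1
            rw [hA, hε]
            exact spec_HV_i hn E v i)
        have hprod : ∏ i ∈ T, ε i = 1 := by
          rw [← Finset.mul_prod_erase T ε hi1]
          have e1 : ε i1 = - sgn4 (n i1) := if_pos rfl
          have e2 : ∏ i ∈ T.erase i1, ε i = ∏ i ∈ T.erase i1, sgn4 (n i) := by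
            apply Finset.prod_congr rfl
            intro i hi
            exact if_neg (Finset.ne_of_mem_erase hi)
          rw [e1, e2, neg_mul, Finset.mul_prod_erase T (fun i => sgn4 (n i)) hi1, h1, neg_neg]
        rw [hprod] at hs
        have hK := mem_KK_of_spec E hc (PA A T) hs
        -- split the product
        have hdisj : Disjoint (QV v T) (QV v (T.erase i1)) := by
          rw [Finset.disjoint_left]
          intro x hx hx'
          rw [QV, Pool.Agent.N992.mem_PA] at hx hx'
          have h2 := hx.1 i1 hi1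
          rw [hx'.2 i1 (Finset.notMem_erase i1 T)] at h2
          exact zero_notMem_HV (h1n i1) (v i1) h2
        have hunion : PA A T = QV v T ∪ QV v (T.erase i1) := by
          ext x
          rw [Finset.mem_union, QV, QV, Pool.Agent.N992.mem_PA,
            Pool.Agent.N992.mem_PA, Pool.Agent.N992.mem_PA]
          constructor
          · rintro ⟨h2, h3⟩
            have h4 := h2 i1 hi1
            have hA : A i1 = insert 0 (HV (n i1) (v i1)) := if_pos rfl
            rw [hA] at h4
            have h5 : ∀ i ∈ T, i ≠ i1 → x i ∈ HV (n i) (v i) := by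
              intro i hi hne
              have := h2 i hi
              have hA : A i = HV (n i) (v i) := if_neg hne
              rwa [hA] at this
            rcases Finset.mem_insert.mp h4 with h4 | h4
            · right
              refine ⟨fun i hi => h5 i (Finset.mem_of_mem_erase hi) (Finset.ne_of_mem_erase hi),
                fun i hi => ?_⟩
              by_cases h6 : i = i1
              · rw [h6]; exact h4
              · exact h3 i (fun h => hi (Finset.mem_erase.mpr ⟨h6, h⟩))
            · left
              refine ⟨fun i hi => ?_, h3⟩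
              by_cases h6 : i = i1
              · subst h6; exact h4
              · exact h5 i hi h6
          · rintro (⟨h2, h3⟩ | ⟨h2, h3⟩)
            · refine ⟨fun i hi => ?_, h3⟩
              by_cases h6 : i = i1
              · subst h6
                have hA : A i = insert 0 (HV (n i) (v i)) := if_pos rfl
                rw [hA]; exact Finset.mem_insert_of_mem (h2 i hi)
              · have hA : A i = HV (n i) (v i) := if_neg h6
                rw [hA]; exact h2 i hi
            · refine ⟨fun i hi => ?_, fun i hi => h3 i (fun h => hi (Finset.mem_of_mem_erase h))⟩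
              by_cases h6 : i = i1
              · subst h6
                have hA : A i = insert 0 (HV (n i) (v i)) := if_pos rfl
                rw [hA, h3 i (Finset.notMem_erase i T)]; exact Finset.mem_insert_self _ _
              · have hA : A i = HV (n i) (v i) := if_neg h6
                rw [hA]; exact h2 i (Finset.mem_erase.mpr ⟨h6, hi⟩)
        have hih := ih (T.erase i1) (by rw [Finset.card_erase_of_mem hi1, hT]; rfl)
        have hsub := (KK E hc).sub_mem hK hih
        convert hsub using 1
        refine Prod.ext ?_ ?_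
        · change _ = _ - _
          simp only []
          rw [hunion, Finset.sum_union hdisj]; abel
        · change _ = (_ : (∀ i, ZMod (n i))ˣ → ℤ) - _
          funext t
          simp only [Pi.sub_apply]
          rw [hunion, Finset.sum_union hdisj]; ring
      · push Not at h2
        have h4 : ∀ i ∈ T, n i = 4 := by
          intro i hi
          rcases hn i with h | h
          · exact absurd h.1 (h2 i hi)
          · exact h
        apply mem_KK_of
        apply Modu.torsion
        intro a ha
        obtain ⟨x, hx, rfl⟩ := Multiset.mem_map.mp ha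
        have h3 : (12 : ℕ) • x = 0 := by
          funext i
          rw [Pi.smul_apply, Pi.zero_apply]
          by_cases hi : i ∈ T
          · rw [nsmul_eq_mul]
            have : ((12 : ℕ) : ZMod (n i)) = 0 := by
              rw [ZMod.natCast_eq_zero_iff, h4 i hi]; norm_num
            rw [this, zero_mul]
          · rw [(Pool.Agent.N992.mem_PA.mp (Finset.mem_val.mp hx)).2 i hi, smul_zero]
        have h5 : E ((12 : ℕ) • x) = 0 := by rw [h3, map_zero]
        rw [map_nsmul, nsmul_eq_mul] at h5
        exact_mod_cast h5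

/-- The class of a product of classes of squares comes from unions of modular spectra. -/
theorem QV_mem_KK (hn : ∀ i, ((n i).Prime ∧ n i % 2 = 1) ∨ n i = 4)
    (hco : Pairwise (fun i j => (n i).Coprime (n j)))
    (E : (∀ i, ZMod (n i)) ≃+* ZMod N) (hc : OddDist c) (v : ∀ i, (ZMod (n i))ˣ)
    (T : Finset ι) :
    (∑ x ∈ PA (fun i => (Hf (n i)).image (fun a => (v i : ZMod (n i)) * a)) T, c (E x),
      fun t : (∀ i, ZMod (n i))ˣ =>
        ∑ x ∈ PA (fun i => (Hf (n i)).image (fun a => (v i : ZMod (n i)) * a)) T,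
          saw (E ((t : ∀ i, ZMod (n i)) * x))) ∈ KK E hc :=
  QV_mem_KK' hn hco E hc v _ T rfl

end level

end Pool.Agent.N998
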