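import Pool.Agent.N993.Chain

/-!
Existence of the auxiliary primes.
-/

namespace Pool.Agent.N998

open Finset Pool.Agent.N993

/-- Dirichlet's theorem with the Chinese remainder theorem: a large prime `q` which is `-1` modulo `A`
and not a square modulo the prime `p`. -/
lemma exists_aux_prime {A p : ℕ} (hA : A ≠ 0) (hp : p.Prime) (hp2 : p ≠ 2) (hcop : A.Coprime p)
    (B : ℕ) : ∃ q, B < q ∧ q.Prime ∧ ((q : ℕ) : ZMod A) = -1 ∧ ¬ IsSquare ((q : ℕ) : ZMod p) := by
  have : Fact p.Prime := ⟨hp⟩
  have hA' : NeZero A := ⟨hA⟩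
  have hAp : NeZero (A * p) := ⟨Nat.mul_ne_zero hA hp.ne_zero⟩
  obtain ⟨a, ha⟩ := FiniteField.exists_nonsquare (F := ZMod p) (by rwa [ZMod.ringChar_zmod_n])
  have ha0 : a ≠ 0 := by
    rintro rfl
    exact ha ⟨0, by simp⟩
  let e := ZMod.chineseRemainder hcop
  have hu : IsUnit (e.symm (-1, a)) := by
    rw [isUnit_map_iff]
    rw [Prod.isUnit_iff]
    exact ⟨isUnit_one.neg, isUnit_iff_ne_zero.mpr ha0⟩
  obtain ⟨q, hq1, hq2, hq3⟩ := Nat.forall_exists_prime_gt_and_eq_mod hu B
  have h1 : e ((q : ℕ) : ZMod (A * p)) = (-1, a) := by rw [hq3, RingEquiv.apply_symm_apply]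
  rw [map_natCast] at h1
  have h2 : ((q : ℕ) : ZMod A) = -1 := by
    have := congrArg Prod.fst h1
    simpa using this
  have h3 : ((q : ℕ) : ZMod p) = a := by
    have := congrArg Prod.snd h1
    simpa using this
  exact ⟨q, hq1, hq2, h2, by rwa [h3]⟩

lemma cast_eq_neg_one_of_dvd {A j q : ℕ} (h : j ∣ A) (hq : ((q : ℕ) : ZMod A) = -1) :
    ((q : ℕ) : ZMod j) = -1 := by
  have := congrArg (ZMod.castHom h (ZMod j)) hq
  rwa [map_natCast, map_neg, map_one] at this

lemma mod_eight {q : ℕ} (h : ((q : ℕ) : ZMod 8) = -1) : q % 8 = 7 := by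
  have h1 : ((q : ℕ) : ZMod 8) = ((7 : ℕ) : ZMod 8) := by rw [h]; decide
  rw [ZMod.natCast_eq_natCast_iff'] at h1
  omega

lemma isSquare_neg_one {p : ℕ} (hp : p.Prime) (hp4 : p % 4 = 1) : IsSquare (-1 : ZMod p) := by
  have : Fact p.Prime := ⟨hp⟩
  rw [ZMod.exists_sq_eq_neg_one_iff]
  omega

lemma not_isSquare_neg_one {p : ℕ} (hp : p.Prime) (hp4 : p % 4 = 3) : ¬ IsSquare (-1 : ZMod p) := by
  have : Fact p.Prime := ⟨hp⟩
  rw [ZMod.exists_sq_eq_neg_one_iff]
  omega

theorem exists_chain (S : Finset ℕ) (hS : ∀ x ∈ S, (x.Prime ∧ x % 2 = 1) ∨ x = 4)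
    (hsq : ∀ p ∈ S, p % 4 = 1 → (∀ j ∈ S, j ≠ p → IsSquare ((j : ℕ) : ZMod p)) ∧
      (4 ∈ S → IsSquare ((2 : ℕ) : ZMod p))) :
    ∃ N, Chain S N ∧ S ⊆ N ∧ (∀ x ∈ N, (x.Prime ∧ x % 2 = 1) ∨ x = 4) ∧ (4 ∈ N → 4 ∈ S) := by
  classical
  set T0 := S.filter (fun x => ¬ x % 4 = 1) with hT0
  set P1 := S.filter (fun x => x % 4 = 1) with hP1
  have key : ∀ P' : Finset ℕ, P' ⊆ P1 → ∃ N', Chain (T0 ∪ P') N' ∧ (T0 ∪ P') ⊆ N' ∧
      ∀ x ∈ N', x ∈ T0 ∪ P' ∨ (x.Prime ∧ x % 8 = 7 ∧
        ∀ j ∈ S, j ∉ T0 ∪ P' → ((x : ℕ) : ZMod j) = -1) := by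
    intro P'
    induction P' using Finset.induction_on with
    | empty =>
      intro _
      refine ⟨T0, ?_, by simp, fun x hx => Or.inl (by simpa using hx)⟩
      rw [union_empty]
      apply Chain.base
      intro x hx
      rw [hT0, mem_filter] at hx
      rcases hS x hx.1 with h | h
      · left
        refine ⟨h.1, ?_⟩
        omega
      · exact Or.inr h
    | insert p P' hpP ih =>
      intro hsub
      have hpP1 : p ∈ P1 := hsub (mem_insert_self _ _)
      obtain ⟨N', hch, hTN, hN'⟩ := ih (fun x hx => hsub (mem_insert_of_mem hx))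
      rw [hP1, mem_filter] at hpP1
      obtain ⟨hpS, hp4⟩ := hpP1
      have hpp : p.Prime := by
        rcases hS p hpS with h | h
        · exact h.1
        · omega
      have : Fact p.Prime := ⟨hpp⟩
      have hp2 : p ≠ 2 := by omega
      have hpT : p ∉ T0 ∪ P' := by
        rw [mem_union, not_or]
        refine ⟨?_, hpP⟩
        rw [hT0, mem_filter]
        exact fun h => h.2 hp4
      have hsubS : T0 ∪ P' ⊆ S := by
        intro x hx
        rcases mem_union.mp hx with h | h
        · exact (mem_filter.mp h).1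
        · exact (mem_filter.mp (hsub (mem_insert_of_mem h))).1
      have hpN : p ∉ N' := by
        intro h
        rcases hN' p h with h | h
        · exact hpT h
        · have := h.2.1; omega
      -- all elements
      have hadm : ∀ x ∈ (N' ∪ S).erase p, x ≠ 0 ∧ x.Coprime p := by
        intro x hx
        rw [mem_erase, mem_union] at hx
        have hx2 : (x.Prime ∧ x % 2 = 1) ∨ x = 4 := by
          rcases hx.2 with h | h
          · rcases hN' x h with h | h
            · exact hS x (hsubS h)
            · exact Or.inl ⟨h.1, by have := h.2.1; omega⟩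
          · exact hS x h
        rcases hx2 with h | h
        · refine ⟨h.1.ne_zero, ?_⟩
          rw [Nat.coprime_primes h.1 hpp]
          exact hx.1
        · subst h
          refine ⟨by norm_num, ?_⟩
          have h2 : Nat.Coprime 2 p := (Nat.coprime_primes Nat.prime_two hpp).mpr (Ne.symm hp2)
          exact Nat.Coprime.mul_left h2 h2
      have h2p : Nat.Coprime 2 p := (Nat.coprime_primes Nat.prime_two hpp).mpr (Ne.symm hp2)
      obtain ⟨q, hqB, hq, hqA, hqp⟩ := exists_aux_prime (A := 8 * ∏ x ∈ (N' ∪ S).erase p, x)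
        (p := p) (by
          refine Nat.mul_ne_zero (by norm_num) ?_
          rw [prod_ne_zero_iff]
          exact fun x hx => (hadm x hx).1) hpp hp2 (by
          refine Nat.Coprime.mul_left ?_ ?_
          · exact Nat.Coprime.pow_left 3 h2p
          · exact Nat.Coprime.prod_left fun x hx => (hadm x hx).2) (∑ x ∈ N' ∪ S, x)
      have hq8 : q % 8 = 7 := mod_eight (cast_eq_neg_one_of_dvd (dvd_mul_right 8 _) hqA)
      have hqneg : ∀ j ∈ N' ∪ S, j ≠ p → ((q : ℕ) : ZMod j) = -1 := by
        intro j hj hjp
        refine cast_eq_neg_one_of_dvd (Dvd.dvd.mul_left ?_ 8) hqA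
        exact dvd_prod_of_mem (fun x => x) (mem_erase.mpr ⟨hjp, hj⟩)
      have hqnot : ∀ j ∈ N' ∪ S, j < q := by
        intro j hj
        exact lt_of_le_of_lt (single_le_sum (f := fun x => x) (fun _ _ => Nat.zero_le _) hj) hqB
      have : Fact q.Prime := ⟨hq⟩
      have hjp : ∀ j ∈ N', j ≠ p := fun j hj h => hpN (h ▸ hj)
      have hsqp : ∀ j ∈ N', IsSquare ((j : ℕ) : ZMod p) := by
        intro j hj
        rcases hN' j hj with h | h
        · exact (hsq p hpS hp4).1 j (hsubS h) (hjp j hj)
        · rw [h.2.2 p hpS hpT]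
          exact isSquare_neg_one hpp hp4
      -- the numbers in `N'`
      have hcases : ∀ j ∈ N', (j.Prime ∧ j % 2 = 1) ∨ j = 4 := by
        intro j hj
        rcases hN' j hj with h | h
        · exact hS j (hsubS h)
        · exact Or.inl ⟨h.1, by have := h.2.1; omega⟩
      have hstep : StepC N' p q := by
        refine ⟨hpp, hq, hp4, hq8, hpN, ?_, hsqp, ?_, ?_, ?_, ?_, hqp⟩
        · intro h
          exact lt_irrefl _ (hqnot q (mem_union_left _ h))
        · intro h4
          apply (hsq p hpS hp4).2
          rcases hN' 4 h4 with h | h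
          · exact hsubS h
          · exact absurd h.1 (by norm_num)
        · intro j hj
          rcases hcases j hj with h | h
          · have : Fact j.Prime := ⟨h.1⟩
            have hqj := hqneg j (mem_union_left _ hj) (hjp j hj)
            by_cases hj4 : j % 4 = 1
            · rw [← ZMod.exists_sq_eq_prime_iff_of_mod_four_eq_one hj4 (by omega : q ≠ 2), hqj]
              exact isSquare_neg_one h.1 hj4
            · have hj3 : j % 4 = 3 := by omega
              have hne : q ≠ j := by
                have := hqnot j (mem_union_left _ hj)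
                omega
              rw [ZMod.exists_sq_eq_prime_iff_of_mod_four_eq_three (by omega : q % 4 = 3) hj3 hne,
                hqj]
              exact not_isSquare_neg_one h.1 hj3
          · subst h
            exact ⟨2, by push_cast; norm_num⟩
        · intro j hj
          rcases hcases j hj with h | h
          · have : Fact j.Prime := ⟨h.1⟩
            rw [← ZMod.exists_sq_eq_prime_iff_of_mod_four_eq_one hp4 (by omega : j ≠ 2)]
            exact hsqp j hj
          · subst h
            have h1 : ((p : ℕ) : ZMod 4) = ((1 : ℕ) : ZMod 4) := by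
              rw [ZMod.natCast_eq_natCast_iff']
              omega
            rw [h1]
            exact ⟨1, by simp⟩
        · intro j hj
          exact hqneg j (mem_union_left _ hj) (hjp j hj)
      have hins : T0 ∪ insert p P' = insert p (T0 ∪ P') := by
        rw [union_insert]
      refine ⟨insert p (insert q N'), ?_, ?_, ?_⟩
      · rw [hins]
        exact Chain.step hch p q hstep
      · rw [hins]
        apply insert_subset_insert
        exact hTN.trans (subset_insert _ _)
      · intro x hx
        rw [mem_insert, mem_insert] at hx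
        rcases hx with h | h | h
        · left; rw [hins, h]; exact mem_insert_self _ _
        · right
          subst h
          refine ⟨hq, hq8, fun j hj hj2 => ?_⟩
          apply hqneg j (mem_union_right _ hj)
          rintro rfl
          apply hj2
          rw [hins]; exact mem_insert_self _ _
        · rcases hN' x h with h | h
          · left; rw [hins]; exact mem_insert_of_mem h
          · right
            refine ⟨h.1, h.2.1, fun j hj hj2 => h.2.2 j hj fun h3 => hj2 ?_⟩
            rw [hins]; exact mem_insert_of_mem h3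
  obtain ⟨N, h1, h2, h3⟩ := key P1 (Subset.refl _)
  have hSS : T0 ∪ P1 = S := by
    rw [hT0, hP1, union_comm]
    exact filter_union_filter_not_eq _ _
  rw [hSS] at h1 h2 h3
  refine ⟨N, h1, h2, ?_, ?_⟩
  · intro x hx
    rcases h3 x hx with h | h
    · exact hS x h
    · exact Or.inl ⟨h.1, by have := h.2.1; omega⟩
  · intro h4
    rcases h3 4 h4 with h | h
    · exact h
    · exact absurd h.1 (by norm_num)

end Pool.Agent.N998
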